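import Pool.Agent.Lib.MP_0e31aa_co.TC.Main
import Pool.Agent.Lib.MP_0e31aa_co.TC.Lower

/-!
# Tree versus odd cycle Ramsey numbers

For every sufficiently large odd `m`, `R(T, C_m) = 2 n - 1` for every `n ≥ ⌈(2 m - 1) / 3⌉` and
every tree `T` on `n` vertices, and this threshold is best possible for every such `m`.
-/

set_option autoImplicit false

namespace Pool.Agent.Results.MP_0e31aa_co.AllLargeOddCycles

open Pool.Agent.Lib.MP_0e31aa_co.TC

/-- The Ramsey number `R(G, H)`: the least positive `N` such that every colouring of the edges of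
`K_N` (given by its blue graph `B`, the red graph is the complement of `B`) contains a red copy of
`G` or a blue copy of `H`. (It is `0` if there is no such `N`; the theorem below shows in
particular that there is one in the cases considered.) -/
noncomputable def ramsey {α β : Type} (G : SimpleGraph α) (H : SimpleGraph β) : ℕ :=
  sInf {N : ℕ | 0 < N ∧ ∀ B : SimpleGraph (Fin N), G.IsContained Bᶜ ∨ H.IsContained B}

theorem ramsey_eq (m n : ℕ) (hn : 1 ≤ n) (hm : Odd m) (hm3 : 3 ≤ m) (T : SimpleGraph (Fin n))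
    (hT : T.IsTree) (h : ∀ B : SimpleGraph (Fin (2 * n - 1)), HasCyc B m ∨ Emb T Bᶜ) :
    ramsey T (SimpleGraph.cycleGraph m) = 2 * n - 1 := by
  have hleast : IsLeast {N : ℕ | 0 < N ∧ ∀ B : SimpleGraph (Fin N), T.IsContained Bᶜ ∨
      (SimpleGraph.cycleGraph m).IsContained B} (2 * n - 1) := by
    refine ⟨⟨by omega, fun B => ?_⟩, ?_⟩
    · rcases h B with h | h
      · exact Or.inr ((cyc_contained B m hm3).1 h)
      · exact Or.inl ((emb_contained T Bᶜ).1 h)
    · rintro N ⟨_, hN⟩
      by_contra hlt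
      obtain ⟨B, hB1, hB2⟩ := lower m n N hm hm3 hn (by omega) T hT
      rcases hN B with h | h
      · exact hB2 ((emb_contained T Bᶜ).2 h)
      · exact hB1 ((cyc_contained B m hm3).2 h)
  exact hleast.csInf_eq

theorem pathGraph_isTree (n : ℕ) : (SimpleGraph.pathGraph (n + 1)).IsTree := by
  rw [SimpleGraph.isTree_iff_connected_and_card]
  refine ⟨SimpleGraph.pathGraph_connected n,
    le_antisymm ?_ (SimpleGraph.pathGraph_connected n).card_vert_le_card_edgeSet_add_one⟩
  have h : Function.Surjective (fun i : Fin n =>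
      (⟨s(i.castSucc, i.succ), by
        rw [SimpleGraph.mem_edgeSet, SimpleGraph.pathGraph_adj]; left; simp⟩ :
        (SimpleGraph.pathGraph (n + 1)).edgeSet)) := by
    rintro ⟨e, he⟩
    induction e with
    | _ u v =>
      rw [SimpleGraph.mem_edgeSet, SimpleGraph.pathGraph_adj] at he
      rcases he with he | he
      · refine ⟨⟨u.1, by have := v.2; omega⟩, ?_⟩
        apply Subtype.ext
        simp only [Sym2.eq_iff]
        left
        exact ⟨Fin.ext rfl, Fin.ext (by simpa using he)⟩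
      · refine ⟨⟨v.1, by have := u.2; omega⟩, ?_⟩
        apply Subtype.ext
        simp only [Sym2.eq_iff]
        right
        exact ⟨Fin.ext rfl, Fin.ext (by simpa using he)⟩
  have h2 : Nat.card (SimpleGraph.pathGraph (n + 1)).edgeSet ≤ Nat.card (Fin n) :=
    Nat.card_le_card_of_surjective _ h
  rw [Nat.card_fin] at h2
  rw [Nat.card_fin]
  omega

/-- `f(m) = ⌈(2 m - 1) / 3⌉` for all large odd `m`. -/
theorem result : ∃ m₀ : ℕ, ∀ m : ℕ, m₀ ≤ m → Odd m →
    IsLeast {f : ℕ | ∀ n : ℕ, f ≤ n → ∀ T : SimpleGraph (Fin n), T.IsTree →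
      ramsey T (SimpleGraph.cycleGraph m) = 2 * n - 1} ⌈(2 * (m : ℚ) - 1) / 3⌉₊ := by
  obtain ⟨m₀, hm₀⟩ := main
  refine ⟨m₀ + 5, fun m hm hodd => ⟨?_, ?_⟩⟩
  · intro n hn T hT
    rw [Nat.ceil_le, div_le_iff₀ (by norm_num)] at hn
    have hn' : 2 * m ≤ 3 * n + 1 := by
      have : (2 * m : ℚ) ≤ 3 * n + 1 := by linarith
      exact_mod_cast this
    refine ramsey_eq m n ?_ hodd (by omega) T hT fun B => hm₀ m (by omega) hodd n hn' B T hT
    omega
  · intro f hf
    rw [Nat.ceil_le, div_le_iff₀ (by norm_num)]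
    by_contra hlt
    rw [not_le] at hlt
    -- the largest `n` below the threshold
    have hlt' : 3 * f + 1 < 2 * m := by
      have : (3 * f + 1 : ℚ) < 2 * m := by linarith
      exact_mod_cast this
    obtain ⟨n, hn1, hn2, hn3⟩ : ∃ n : ℕ, f ≤ n ∧ 2 ≤ n ∧ 3 * n + 1 < 2 * m :=
      ⟨max f 2, le_max_left _ _, le_max_right _ _, by
        rcases max_choice f 2 with h | h <;> rw [h] <;> omega⟩
    obtain ⟨k, rfl⟩ : ∃ k, n = k + 1 := ⟨n - 1, by omega⟩
    have hr := hf (k + 1) hn1 (SimpleGraph.pathGraph (k + 1)) (pathGraph_isTree k)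
    obtain ⟨B, hB1, hB2⟩ := lower_path m (k + 1) hodd (by omega) hn2 hn3
    have hmem : 2 * (k + 1) - 1 ∈ {N : ℕ | 0 < N ∧ ∀ B : SimpleGraph (Fin N),
        (SimpleGraph.pathGraph (k + 1)).IsContained Bᶜ ∨
        (SimpleGraph.cycleGraph m).IsContained B} := by
      have hne : {N : ℕ | 0 < N ∧ ∀ B : SimpleGraph (Fin N),
          (SimpleGraph.pathGraph (k + 1)).IsContained Bᶜ ∨
          (SimpleGraph.cycleGraph m).IsContained B}.Nonempty := by
        apply Nat.nonempty_of_pos_sInf
        unfold ramsey at hr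
        omega
      have := Nat.sInf_mem hne
      unfold ramsey at hr
      rwa [hr] at this
    rcases hmem.2 B with h | h
    · exact hB2 ((emb_contained _ Bᶜ).2 h)
    · exact hB1 ((cyc_contained B m (by omega)).2 h)

end Pool.Agent.Results.MP_0e31aa_co.AllLargeOddCycles
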