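import Pool.Agent.Lib.MP_0e31aa_co.H.LoeblDef
import Pool.Agent.Lib.MP_0e31aa_co.TC.Lower

/-!
# Tree versus cycle: colourings with few vertices of large red degree

Let `T` be a tree on `n ≥ 3` vertices with a colour class of `p` vertices and let the edges of
`K_(2 n - 1)` be coloured red and blue such that fewer than `n` vertices have red degree at least
`n - 1`. Then there is a red copy of `T` or there are blue cycles of all lengths from `3` to
`2 n - p`.
-/

set_option autoImplicit false

namespace Pool.Agent.Results.MP_0e31aa_co.FewLargeRedDegrees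

open Finset
open Pool.Agent.Lib.MP_0e31aa_co.TC (HasCyc Emb cyc_contained emb_contained nb mem_nb Bip)
open Pool.Agent.Lib.MP_0e31aa_co.H (big mem_big dg dg_compl thmG)

theorem ncard_nb {N : ℕ} (G : SimpleGraph (Fin N)) (v : Fin N) :
    (G.neighborSet v).ncard = dg G v := by
  unfold dg
  rw [← Set.ncard_coe_finset]
  congr 1
  ext u
  simp [mem_nb]

theorem core (n : ℕ) (hn : 3 ≤ n) (T : SimpleGraph (Fin n)) (hT : T.IsTree) (P : Finset (Fin n))
    (hP : Bip T P) (hP2 : 2 * P.card ≤ n) (B : SimpleGraph (Fin (2 * n - 1)))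
    (hd : {v : Fin (2 * n - 1) | n - 1 ≤ (Bᶜ.neighborSet v).ncard}.ncard < n)
    (hE : ¬ Emb T Bᶜ) (l : ℕ) (hl : 3 ≤ l) (hl2 : l + P.card ≤ 2 * n) : HasCyc B l := by
  classical
  have hV : Fintype.card (Fin (2 * n - 1)) + 1 = 2 * n := by rw [Fintype.card_fin]; omega
  have h0 : {v : Fin (2 * n - 1) | n - 1 ≤ (Bᶜ.neighborSet v).ncard} =
      (big Bᶜ (n - 1) : Set (Fin (2 * n - 1))) := by
    ext v
    simp [mem_big, ncard_nb]
  rw [h0, Set.ncard_coe_finset] at hd
  have h2 : univ \ big Bᶜ (n - 1) ⊆ big B n := by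
    intro v hv
    have h3 := (mem_sdiff.1 hv).2
    rw [mem_big, not_le] at h3
    rw [mem_big]
    have h4 := dg_compl B v
    omega
  have h3 : n ≤ (big B n).card := by
    refine le_trans ?_ (card_le_card h2)
    have h4 := card_sdiff_add_card_eq_card (subset_univ (big Bᶜ (n - 1)))
    rw [card_univ] at h4
    omega
  exact thmG n hn hV (Fintype.card_fin n) T hT P hP hP2 B h3 hE l hl hl2

theorem result (n : ℕ) (hn : 3 ≤ n) (T : SimpleGraph (Fin n)) (hT : T.IsTree)
    (P : Set (Fin n)) (hP : T.IsBipartiteWith P Pᶜ) (B : SimpleGraph (Fin (2 * n - 1)))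
    (hd : {v : Fin (2 * n - 1) | n - 1 ≤ (Bᶜ.neighborSet v).ncard}.ncard < n) :
    T.IsContained Bᶜ ∨
      ∀ l : ℕ, 3 ≤ l → l + P.ncard ≤ 2 * n → (SimpleGraph.cycleGraph l).IsContained B := by
  classical
  by_cases hE : Emb T Bᶜ
  · exact Or.inl ((emb_contained T Bᶜ).1 hE)
  right
  intro l hl hl2
  rw [← cyc_contained B l hl]
  have hPc : P.ncard = P.toFinset.card := Set.ncard_eq_toFinset_card' P
  have hB : Bip T P.toFinset := by
    intro u v huv
    have h1 := hP.mem_of_adj huv
    simp only [Set.mem_toFinset]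
    rcases h1 with ⟨h1, h2⟩ | ⟨h1, h2⟩
    · exact ⟨fun _ => h2, fun _ => h1⟩
    · exact ⟨fun h3 => absurd h3 h1, fun h3 => absurd h2 h3⟩
  rw [hPc] at hl2
  by_cases hc : 2 * P.toFinset.card ≤ n
  · exact core n hn T hT P.toFinset hB hc B hd hE l hl hl2
  · have hcc : (P.toFinsetᶜ).card + P.toFinset.card = n := by
      rw [Finset.card_compl, Fintype.card_fin]
      have := card_le_univ P.toFinset
      rw [Fintype.card_fin] at this
      omega
    refine core n hn T hT P.toFinsetᶜ ?_ (by omega) B hd hE l hl (by omega)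
    intro u v huv
    rw [mem_compl, mem_compl, hB u v huv]

end Pool.Agent.Results.MP_0e31aa_co.FewLargeRedDegrees
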