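import Pool.Agent.Lib.MP_0e31aa_co.H.Main
import Pool.Agent.Lib.MP_0e31aa_co.TC.Lower

/-!
# Tree versus odd cycle Ramsey numbers: exact values for classes of trees

`R(T, C_m) = 2 n - 1` for every odd `m ≥ 5`, every `n ≥ ⌈(2 m - 1) / 3⌉` and every tree `T` on `n`
vertices which has diameter at most four, or at most `(n + 9) / 5` non-leaves, or a colour class
`P` with at most `(n + 5) / 3` vertices in the union of `P` and the set of non-leaves.
-/

set_option autoImplicit false

namespace Pool.Agent.Results.MP_0e31aa_co.TreeClassesExact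

open Pool.Agent.Lib.MP_0e31aa_co.TC (HasCyc Emb cyc_contained emb_contained lower nb mem_nb Bip)
open Pool.Agent.Lib.MP_0e31aa_co.H (main_fam inner mem_inner dg)

/-- The Ramsey number `R(G, H)`: the least positive `N` such that every colouring of the edges of
`K_N` (given by its blue graph `B`, the red graph is the complement of `B`) contains a red copy of
`G` or a blue copy of `H`. (It is `0` if there is no such `N`; the theorem below shows in
particular that there is one in the cases considered.) -/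
noncomputable def ramsey {α β : Type} (G : SimpleGraph α) (H : SimpleGraph β) : ℕ :=
  sInf {N : ℕ | 0 < N ∧ ∀ B : SimpleGraph (Fin N), G.IsContained Bᶜ ∨ H.IsContained B}

theorem ramsey_eq (m n : ℕ) (hn : 1 ≤ n) (hm : Odd m) (hm3 : 3 ≤ m) (T : SimpleGraph (Fin n))
    (hT : T.IsTree) (h : ∀ B : SimpleGraph (Fin (2 * n - 1)), HasCyc B m ∨ Emb T Bᶜ) :
    ramsey T (SimpleGraph.cycleGraph m) = 2 * n - 1 := by
  have hleast : IsLeast {N : ℕ | 0 < N ∧ ∀ B : SimpleGraph (Fin N), T.IsContained Bᶜ ∨
      (SimpleGraph.cycleGraph m).IsContained B} (2 * n - 1) := by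
    refine ⟨⟨by omega, fun B => ?_⟩, ?_⟩
    · rcases h B with h | h
      · exact Or.inr ((cyc_contained B m hm3).1 h)
      · exact Or.inl ((emb_contained T Bᶜ).1 h)
    · rintro N ⟨_, hN⟩
      by_contra hlt
      obtain ⟨B, hB1, hB2⟩ := lower m n N hm hm3 hn (by omega) T hT
      rcases hN B with h | h
      · exact hB2 ((emb_contained T Bᶜ).2 h)
      · exact hB1 ((cyc_contained B m hm3).2 h)
  exact hleast.csInf_eq

/-- The set of non-leaves: the vertices with at least two neighbours. -/
def nonLeaves {n : ℕ} (T : SimpleGraph (Fin n)) : Set (Fin n) :=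
  {v | 2 ≤ (T.neighborSet v).ncard}

theorem coe_inner {n : ℕ} (T : SimpleGraph (Fin n)) :
    (inner T : Set (Fin n)) = nonLeaves T := by
  ext v
  have h : (T.neighborSet v).ncard = dg T v := by
    unfold dg
    rw [← Set.ncard_coe_finset]
    congr 1
    ext u
    simp [mem_nb]
  simp [nonLeaves, mem_inner, h]

/-- The class of trees of the theorem. -/
def InClass {n : ℕ} (T : SimpleGraph (Fin n)) : Prop :=
  (∀ u v, T.dist u v ≤ 4) ∨
    5 * (nonLeaves T).ncard ≤ n + 9 ∨
      ∃ P : Set (Fin n), T.IsBipartiteWith P Pᶜ ∧ 3 * (P ∪ nonLeaves T).ncard ≤ n + 5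

theorem result (m n : ℕ) (hm : Odd m) (hm5 : 5 ≤ m) (hn : ⌈(2 * (m : ℚ) - 1) / 3⌉₊ ≤ n)
    (T : SimpleGraph (Fin n)) (hT : T.IsTree) (hc : InClass T) :
    ramsey T (SimpleGraph.cycleGraph m) = 2 * n - 1 := by
  classical
  rw [Nat.ceil_le, div_le_iff₀ (by norm_num)] at hn
  have hn' : 2 * m ≤ 3 * n + 1 := by
    have : (2 * m : ℚ) ≤ 3 * n + 1 := by linarith
    exact_mod_cast this
  refine ramsey_eq m n (by omega) hm (by omega) T hT fun B => ?_
  refine main_fam m n hm5 hn' T hT ?_ B
  rcases hc with h | h | ⟨P, hP, h⟩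
  · exact Or.inl h
  · refine Or.inr (Or.inl ?_)
    rw [← coe_inner, Set.ncard_coe_finset] at h
    exact h
  · refine Or.inr (Or.inr ⟨P.toFinset, ?_, ?_⟩)
    · intro u v huv
      have h1 := hP.mem_of_adj huv
      simp only [Set.mem_toFinset]
      rcases h1 with ⟨h1, h2⟩ | ⟨h1, h2⟩
      · exact ⟨fun _ => h2, fun _ => h1⟩
      · exact ⟨fun h3 => absurd h3 h1, fun h3 => absurd h2 h3⟩
    · rw [← coe_inner, ← Set.coe_toFinset P, ← Finset.coe_union, Set.ncard_coe_finset] at h
      exact h

end Pool.Agent.Results.MP_0e31aa_co.TreeClassesExact
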